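import Mathlib
import Pool.Agent.Y113.MT.Stm

/-!
# Reducible subalgebras: counting (job Y113-MT LIE3)
-/

set_option autoImplicit false

open Matrix

namespace Pool.Agent.Y195.MT

open Pool.Agent.Y113.MT

variable {F : Type} [Field F]

theorem mul_SS (n : ℕ) (X : Matrix (Fin n) (Fin n) F) (a c : Fin n) :
    (X * SS F n) a c = X a (Fin.rev c) * (-1) ^ ((Fin.rev c : Fin n) : ℕ) := by
  rw [Matrix.mul_apply, Finset.sum_eq_single (Fin.rev c)]
  · unfold SS
    rw [Matrix.of_apply, if_pos (by rw [Fin.val_rev]; omega)]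
  · intro k _ hk
    unfold SS
    rw [Matrix.of_apply, if_neg, mul_zero]
    intro h
    apply hk
    apply Fin.ext
    rw [Fin.val_rev]
    omega
  · intro h; exact absurd (Finset.mem_univ _) h

theorem SS_mul (n : ℕ) (X : Matrix (Fin n) (Fin n) F) (a c : Fin n) :
    (SS F n * Xᵀ) a c = (-1) ^ (a : ℕ) * X c (Fin.rev a) := by
  rw [Matrix.mul_apply, Finset.sum_eq_single (Fin.rev a)]
  · unfold SS
    rw [Matrix.of_apply, if_pos (by rw [Fin.val_rev]; omega), Matrix.transpose_apply]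
  · intro k _ hk
    unfold SS
    rw [Matrix.of_apply, if_neg, zero_mul]
    intro h
    apply hk
    apply Fin.ext
    rw [Fin.val_rev]
    omega
  · intro h; exact absurd (Finset.mem_univ _) h

theorem sq_sign (k : ℕ) : ((-1 : F) ^ k) * (-1) ^ k = 1 := by
  rw [← mul_pow, neg_mul_neg, one_mul, one_pow]

/-- the symplectic Lie algebra in terms of the entries -/
theorem sp_iff (n : ℕ) (X : Matrix (Fin n) (Fin n) F) :
    X * SS F n + SS F n * Xᵀ = 0 ↔
      ∀ i j, X (Fin.rev j) (Fin.rev i) = -((-1) ^ ((i : ℕ) + (j : ℕ))) * X i j := by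
  constructor
  · intro h i j
    have h1 := congrFun (congrFun h i) (Fin.rev j)
    rw [Matrix.add_apply, mul_SS, SS_mul, Fin.rev_rev, Matrix.zero_apply] at h1
    have h2 := sq_sign (F := F) (i : ℕ)
    rw [pow_add]
    linear_combination (-1 : F) ^ (i : ℕ) * h1 - X (Fin.rev j) (Fin.rev i) * h2
  · intro h
    ext a c
    rw [Matrix.add_apply, mul_SS, SS_mul, Matrix.zero_apply]
    have h1 := h a (Fin.rev c)
    rw [Fin.rev_rev, pow_add] at h1
    have h2 := sq_sign (F := F) (a : ℕ)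
    rw [h1]
    linear_combination (-(X a (Fin.rev c)) * (-1) ^ ((Fin.rev c : Fin n) : ℕ)) * h2

/-- the element of the symplectic Lie algebra attached to a pair -/
def xi (F : Type) [Field F] (n : ℕ) (a b : Fin n) : Matrix (Fin n) (Fin n) F :=
  Matrix.of fun i j => if i = a ∧ j = b then 1 else
    if i = Fin.rev b ∧ j = Fin.rev a then -((-1) ^ ((a : ℕ) + (b : ℕ))) else 0

theorem xi_sp (m : ℕ) (a b : Fin (2 * m)) :
    xi F (2 * m) a b * SS F (2 * m) + SS F (2 * m) * (xi F (2 * m) a b)ᵀ = 0 := by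
  rw [sp_iff]
  intro i j
  unfold xi
  simp only [Matrix.of_apply]
  by_cases h1 : i = a ∧ j = b
  · obtain ⟨rfl, rfl⟩ := h1
    rw [if_pos (⟨rfl, rfl⟩ : i = i ∧ j = j)]
    by_cases h2 : Fin.rev j = i ∧ Fin.rev i = j
    · rw [if_pos h2]
      have h3 : (i : ℕ) + (j : ℕ) + 1 = 2 * m := by
        have := congrArg Fin.val h2.1
        rw [Fin.val_rev] at this
        omega
      rw [Odd.neg_one_pow (by rw [Nat.odd_iff]; omega)]
      norm_num
    · rw [if_neg h2, if_pos ⟨rfl, rfl⟩, mul_one]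
  · rw [if_neg h1]
    by_cases h2 : i = Fin.rev b ∧ j = Fin.rev a
    · rw [if_pos h2]
      obtain ⟨rfl, rfl⟩ := h2
      rw [if_pos ⟨Fin.rev_rev _, Fin.rev_rev _⟩, neg_mul_neg]
      have h3 : ((-1 : F)) ^ (((Fin.rev b : Fin (2 * m)) : ℕ) + ((Fin.rev a : Fin (2 * m)) : ℕ)) =
          (-1) ^ ((a : ℕ) + (b : ℕ)) := by
        apply neg_one_pow_congr
        rw [Fin.val_rev, Fin.val_rev, Nat.even_iff, Nat.even_iff]
        have := a.2
        have := b.2
        omega
      rw [h3, sq_sign]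
    · rw [if_neg h2, mul_zero, if_neg, if_neg]
      · rintro ⟨h3, h4⟩
        exact h1 ⟨Fin.rev_injective h4, Fin.rev_injective h3⟩
      · rintro ⟨h3, h4⟩
        apply h2
        rw [← h3, ← h4, Fin.rev_rev, Fin.rev_rev]
        exact ⟨rfl, rfl⟩

theorem xi_up (n : ℕ) {a b : Fin n} (hab : a < b) (i j : Fin n) (h : j ≤ i) :
    xi F n a b i j = 0 := by
  unfold xi
  rw [Matrix.of_apply, if_neg, if_neg]
  · rintro ⟨rfl, rfl⟩
    have := Fin.rev_lt_rev.2 hab
    exact absurd h (not_le.2 this)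
  · rintro ⟨rfl, rfl⟩
    exact absurd h (not_le.2 hab)

theorem xi_one (n : ℕ) (a b : Fin n) : xi F n a b a b = 1 := by
  unfold xi
  rw [Matrix.of_apply, if_pos ⟨rfl, rfl⟩]

theorem xi_tr (m : ℕ) (σ : F →+* F) {a b : Fin (2 * m)} (X : Matrix (Fin (2 * m)) (Fin (2 * m)) F)
    (hX : X * SS F (2 * m) + SS F (2 * m) * Xᵀ = 0) (h0 : X a b = 0) :
    Matrix.trace (X * ((xi F (2 * m) a b).map σ)ᵀ) = 0 := by
  rw [sp_iff] at hX
  unfold Matrix.trace
  refine Finset.sum_eq_zero fun i _ => ?_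
  rw [Matrix.diag_apply, Matrix.mul_apply]
  refine Finset.sum_eq_zero fun j _ => ?_
  rw [Matrix.transpose_apply, Matrix.map_apply]
  unfold xi
  rw [Matrix.of_apply]
  by_cases h1 : i = a ∧ j = b
  · obtain ⟨rfl, rfl⟩ := h1
    rw [h0, zero_mul]
  · by_cases h2 : i = Fin.rev b ∧ j = Fin.rev a
    · obtain ⟨rfl, rfl⟩ := h2
      rw [hX a b, h0, mul_zero, zero_mul]
    · rw [if_neg h1, if_neg h2, map_zero, mul_zero]

theorem lie3 : S_LIE3 := by
  intro F _ _ σ m hm L hL hI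
  classical
  unfold Irr at hI
  push Not at hI
  obtain ⟨I, ⟨x0, hx0⟩, hne, hz⟩ := hI
  obtain ⟨y0, hy0⟩ : ∃ y, y ∉ I := by
    by_contra hcon
    push Not at hcon
    exact hne (Set.eq_univ_of_forall hcon)
  have hσ : Function.Injective σ := σ.injective
  -- separated entries vanish
  have hz1 : ∀ X ∈ L, ∀ a b, a ∉ I → b ∈ I → X a b = 0 := fun X hX a b ha hb => hz X hX a ha b hb
  have hz2 : ∀ X ∈ L, ∀ a b, a ∉ I → b ∈ I → X b a = 0 := by
    intro X hX a b ha hb
    have h1 := hz1 _ (hL.adj X hX) a b ha hb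
    rw [Matrix.transpose_apply, Matrix.map_apply] at h1
    exact hσ (by rw [h1, map_zero])
  -- good choice of x, y
  by_cases hg : ∃ x ∈ I, ∃ y, y ∉ I ∧ y ≠ Fin.rev x
  · obtain ⟨x, hx, y, hy, hxy⟩ := hg
    have hrx : Fin.rev x ≠ x := by
      intro h
      have := congrArg Fin.val h
      rw [Fin.val_rev] at this
      omega
    set J : Finset (Fin (2 * m)) := (Finset.univ.erase x).erase (Fin.rev x) with hJ
    have hcard : J.card = 2 * m - 2 := by
      rw [hJ, Finset.card_erase_of_mem (Finset.mem_erase.2 ⟨hrx, Finset.mem_univ _⟩),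
        Finset.card_erase_of_mem (Finset.mem_univ _), Finset.card_univ, Fintype.card_fin]
      omega
    have hJx : ∀ z ∈ J, z ≠ x ∧ z ≠ Fin.rev x := by
      intro z hz
      rw [hJ, Finset.mem_erase, Finset.mem_erase] at hz
      exact ⟨hz.2.1, hz.1⟩
    -- the pairs
    have hpair : ∀ z : Fin (2 * m), ∃ p : Fin (2 * m) × Fin (2 * m), z ∈ J → p.1 < p.2 ∧
        ((z ∉ I ∧ ((p.1 = x ∧ p.2 = z) ∨ (p.1 = z ∧ p.2 = x))) ∨
          (z ∈ I ∧ ((p.1 = y ∧ p.2 = z) ∨ (p.1 = z ∧ p.2 = y)))) := by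
      intro z
      by_cases hzI : z ∈ I
      · rcases lt_trichotomy y z with h | h | h
        · exact ⟨(y, z), fun _ => ⟨h, Or.inr ⟨hzI, Or.inl ⟨rfl, rfl⟩⟩⟩⟩
        · exact absurd (h ▸ hzI) hy
        · exact ⟨(z, y), fun _ => ⟨h, Or.inr ⟨hzI, Or.inr ⟨rfl, rfl⟩⟩⟩⟩
      · rcases lt_trichotomy x z with h | h | h
        · exact ⟨(x, z), fun _ => ⟨h, Or.inl ⟨hzI, Or.inl ⟨rfl, rfl⟩⟩⟩⟩
        · exact absurd (h ▸ hx) hzI
        · exact ⟨(z, x), fun _ => ⟨h, Or.inl ⟨hzI, Or.inr ⟨rfl, rfl⟩⟩⟩⟩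
    choose p hp using hpair
    have hzero : ∀ z ∈ J, ∀ X ∈ L, X (p z).1 (p z).2 = 0 := by
      intro z hzJ X hX
      obtain ⟨-, ⟨h1, h2⟩ | ⟨h1, h2⟩⟩ := hp z hzJ
      · rcases h2 with ⟨e1, e2⟩ | ⟨e1, e2⟩
        · rw [e1, e2]; exact hz2 X hX z x h1 hx
        · rw [e1, e2]; exact hz1 X hX z x h1 hx
      · rcases h2 with ⟨e1, e2⟩ | ⟨e1, e2⟩
        · rw [e1, e2]; exact hz1 X hX y z hy h1
        · rw [e1, e2]; exact hz2 X hX y z hy h1
    have hrev : ∀ u v : Fin (2 * m), u = Fin.rev v ↔ (u : ℕ) + v + 1 = 2 * m := by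
      intro u v
      rw [Fin.ext_iff, Fin.val_rev]
      have := u.2
      have := v.2
      omega
    have hoff : ∀ z ∈ J, ∀ w ∈ J, w ≠ z → xi F (2 * m) (p w).1 (p w).2 (p z).1 (p z).2 = 0 := by
      intro z hzJ w hwJ hwz
      obtain ⟨hlt, hz'⟩ := hp z hzJ
      obtain ⟨hlt', hw'⟩ := hp w hwJ
      obtain ⟨a1, a2⟩ := hJx z hzJ
      obtain ⟨b1, b2⟩ := hJx w hwJ
      have hyz : z ∈ I → z ≠ y := fun h e => hy (e ▸ h)
      have hyw : w ∈ I → w ≠ y := fun h e => hy (e ▸ h)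
      have hxyne : x ≠ y := fun e => hy (e ▸ hx)
      unfold xi
      rw [Matrix.of_apply, if_neg, if_neg]
      · rw [hrev, hrev]
        rw [Ne, hrev] at hxy a2 b2
        rw [Ne, Fin.ext_iff] at a1 b1 hwz hxyne
        rintro ⟨h1, h2⟩
        rcases hz' with ⟨hzI, hz'⟩ | ⟨hzI, hz'⟩ <;> rcases hw' with ⟨hwI, hw'⟩ | ⟨hwI, hw'⟩ <;>
          simp only [Fin.ext_iff] at hz' hw' <;> omega
      · rw [Ne, hrev] at hxy a2 b2
        rw [Ne, Fin.ext_iff] at a1 b1 hwz hxyne
        rw [Fin.ext_iff, Fin.ext_iff]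
        rintro ⟨h1, h2⟩
        rcases hz' with ⟨hzI, hz'⟩ | ⟨hzI, hz'⟩ <;> rcases hw' with ⟨hwI, hw'⟩ | ⟨hwI, hw'⟩ <;>
          simp only [Fin.ext_iff] at hz' hw' <;> omega
    let e := (Finset.equivFinOfCardEq hcard).symm
    refine ⟨fun k => xi F (2 * m) (p (e k)).1 (p (e k)).2, ?_, fun k => ⟨xi_sp m _ _,
      fun a b hab => xi_up _ (hp _ (e k).2).1 a b hab, fun X hX => xi_tr m σ X (hL.sp X hX)
        (hzero _ (e k).2 X hX)⟩⟩
    rw [Fintype.linearIndependent_iff]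
    intro g hg k
    have h1 := congrFun (congrFun hg (p (e k)).1) (p (e k)).2
    rw [Matrix.sum_apply, Matrix.zero_apply, Finset.sum_eq_single k] at h1
    · rw [Matrix.smul_apply, xi_one, smul_eq_mul, mul_one] at h1
      exact h1
    · intro l _ hlk
      rw [Matrix.smul_apply, hoff _ (e k).2 _ (e l).2, smul_zero]
      intro h
      exact hlk (e.injective (Subtype.ext h))
    · intro h; exact absurd (Finset.mem_univ _) h
  · -- two coordinates only
    push Not at hg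
    have hm1 : m = 1 := by
      by_contra hm1
      have hcard : (Finset.univ : Finset (Fin (2 * m))) ⊆ {x0, Fin.rev x0} := by
        intro z _
        rw [Finset.mem_insert, Finset.mem_singleton]
        by_cases hzI : z ∈ I
        · left
          have h1 := hg z hzI y0 hy0
          have h2 := hg x0 hx0 y0 hy0
          exact Fin.rev_injective (h1.symm.trans h2)
        · right
          exact hg x0 hx0 z hzI
      have := Finset.card_le_card hcard
      rw [Finset.card_univ, Fintype.card_fin] at this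
      have := this.trans Finset.card_le_two
      omega
    subst hm1
    have : IsEmpty (Fin (2 * 1 - 2)) := (inferInstance : IsEmpty (Fin 0))
    exact ⟨fun k => isEmptyElim k, linearIndependent_empty_type, fun k => isEmptyElim k⟩

end Pool.Agent.Y195.MT
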